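import Pool.Agent.Helper82.BR.St

/-!
# Module CT of project BR
-/

set_option autoImplicit false

namespace Pool.Agent.Helper45.BR

open Pool.Agent.Helper82.BR
open scoped ComplexConjugate

private theorem mc {p : ℂ} (h : ‖p‖ = 1) : p * conj p = 1 := by
  rw [Complex.mul_conj, Complex.normSq_eq_norm_sq, h]
  norm_num

private theorem dd {s p q : ℂ} (h : dist s p = dist s q) :
    (s - p) * (conj s - conj p) = (s - q) * (conj s - conj q) := by
  rw [← map_sub, ← map_sub, Complex.mul_conj, Complex.mul_conj, Complex.normSq_eq_norm_sq,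
    Complex.normSq_eq_norm_sq, ← dist_eq_norm, ← dist_eq_norm, h]

/-- the bisector of two points of the unit circle -/
private theorem bis {s p q : ℂ} (hp : ‖p‖ = 1) (hq : ‖q‖ = 1) (hpq : p ≠ q)
    (h : dist s p = dist s q) : s = p * q * conj s := by
  have h1 := dd h
  have hp' := mc hp
  have hq' := mc hq
  have h2 : (p - q) * (s - p * q * conj s) = 0 := by
    linear_combination (p * q) * h1 + (q * s - p * q) * hp' + (p * q - p * s) * hq'
  rcases mul_eq_zero.1 h2 with h3 | h3
  · exact absurd (sub_eq_zero.1 h3) hpq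
  · exact sub_eq_zero.1 h3

/-- the bisector of the origin and a point of the unit circle -/
private theorem bis0 {s p : ℂ} (hp : ‖p‖ = 1) (h : dist s 0 = dist s p) :
    conj s * p ^ 2 - p + s = 0 := by
  have h1 := dd h
  have hp' := mc hp
  rw [map_zero, sub_zero, sub_zero] at h1
  linear_combination p * h1 + (p - s) * hp'

private theorem bis1 {s p w : ℂ} (hw : w ^ 2 = w - 1) (hs : ‖s‖ = 1) (hp : ‖p‖ = 1)
    (h : dist s 0 = dist s p) : s = p * w ∨ s = p * (1 - w) := by
  have h1 := bis0 hp h
  have hs' := mc hs
  have h2 : (s - p * w) * (s - p * (1 - w)) = 0 := by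
    linear_combination s * h1 - p ^ 2 * hs' - p ^ 2 * hw
  rcases mul_eq_zero.1 h2 with h3 | h3
  · exact Or.inl (sub_eq_zero.1 h3)
  · exact Or.inr (sub_eq_zero.1 h3)

private theorem exw : ∃ w : ℂ, w ^ 2 = w - 1 := by
  refine ⟨⟨1 / 2, √3 / 2⟩, ?_⟩
  have h3 : √3 * √3 = 3 := Real.mul_self_sqrt (by norm_num)
  apply Complex.ext
  · rw [pow_two, Complex.mul_re, Complex.sub_re, Complex.one_re]
    change (1 / 2 : ℝ) * (1 / 2) - √3 / 2 * (√3 / 2) = 1 / 2 - 1
    linear_combination (-1 / 4) * h3
  · rw [pow_two, Complex.mul_im, Complex.sub_im, Complex.one_im]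
    change (1 / 2 : ℝ) * (√3 / 2) + √3 / 2 * (1 / 2) = √3 / 2 - 0
    ring

private theorem four (S : Finset ℂ) (hS : Rich S) (h2 : 2 ≤ S.card) : 4 ≤ S.card := by
  obtain ⟨p, hp, q, hq, hpq⟩ := Finset.one_lt_card.1 (by omega : 1 < S.card)
  have h := hS p hp q hq hpq
  have hsub : (S.filter (fun s => dist s p = dist s q)) ⊆ (S.erase p).erase q := by
    intro s hs
    rw [Finset.mem_filter] at hs
    rw [Finset.mem_erase, Finset.mem_erase]
    refine ⟨?_, ?_, hs.1⟩
    · rintro rfl
      have := hs.2
      rw [dist_self, dist_eq_zero] at this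
      exact hpq this.symm
    · rintro rfl
      have := hs.2
      rw [dist_self, eq_comm, dist_eq_zero] at this
      exact hpq this
  have h3 := Finset.card_le_card hsub
  rw [Finset.card_erase_of_mem (Finset.mem_erase.2 ⟨hpq.symm, hq⟩),
    Finset.card_erase_of_mem hp] at h3
  omega

theorem hCT (hPR : StPR) : StCT := by
  classical
  intro S hS h2 h0
  have h4 := four S hS h2
  obtain ⟨w, hw⟩ := exw
  set A := S.filter (fun s => ‖s‖ = 1) with hA
  set B := S.filter (fun s => ‖s‖ ≠ 1 ∧ s ≠ 0) with hB
  have mA : ∀ s, s ∈ A ↔ s ∈ S ∧ ‖s‖ = 1 := fun s => by rw [hA, Finset.mem_filter]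
  have mB : ∀ s, s ∈ B ↔ s ∈ S ∧ ‖s‖ ≠ 1 ∧ s ≠ 0 := fun s => by rw [hB, Finset.mem_filter]
  have h0A : (0 : ℂ) ∉ A := by
    intro h
    have := ((mA 0).1 h).2
    rw [norm_zero] at this
    exact zero_ne_one this
  have hcard : S.card = A.card + B.card + 1 := by
    have hU : S = insert 0 (A ∪ B) := by
      ext s
      rw [Finset.mem_insert, Finset.mem_union, mA, mB]
      constructor
      · intro hs
        by_cases hs0 : s = 0
        · exact Or.inl hs0
        · by_cases hs1 : ‖s‖ = 1
          · exact Or.inr (Or.inl ⟨hs, hs1⟩)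
          · exact Or.inr (Or.inr ⟨hs, hs1, hs0⟩)
      · rintro (rfl | ⟨hs, -⟩ | ⟨hs, -⟩)
        · exact h0
        · exact hs
        · exact hs
    have hdis : Disjoint A B := by
      rw [Finset.disjoint_left]
      intro s hs hs'
      exact ((mB s).1 hs').2.1 ((mA s).1 hs).2
    have h0U : (0 : ℂ) ∉ A ∪ B := by
      rw [Finset.mem_union]
      rintro (h | h)
      · exact h0A h
      · exact ((mB 0).1 h).2.2 rfl
    conv_lhs => rw [hU]
    rw [Finset.card_insert_of_notMem h0U, Finset.card_union_of_disjoint hdis]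
  suffices hmain : A.card ≤ 8 * B.card by omega
  by_cases ha : A.card ≤ 2
  · have : 1 ≤ B.card := by omega
    omega
  push Not at ha
  -- the products
  set D := (A.offDiag).image (fun x => x.1 * x.2) with hD
  have hDc : A.card ≤ D.card := hPR A h0A ha
  set Sq := A.image (fun p => p ^ 2) with hSq
  have hDS : D ⊆ Sq ∪ B.image (fun s => s / conj s) := by
    intro d hd
    rw [hD, Finset.mem_image] at hd
    obtain ⟨x, hx, rfl⟩ := hd
    rw [Finset.mem_offDiag] at hx
    obtain ⟨hx1, hx2, hx3⟩ := hx
    have hp := (mA _).1 hx1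
    have hq := (mA _).1 hx2
    have hr := hS x.1 hp.1 x.2 hq.1 hx3
    obtain ⟨s, hs, hs0⟩ := Finset.exists_mem_ne (by omega : 1 < (S.filter (fun s => dist s x.1 = dist s x.2)).card) 0
    rw [Finset.mem_filter] at hs
    have hb := bis hp.2 hq.2 hx3 hs.2
    have hcs : conj s ≠ 0 := (map_ne_zero _).2 hs0
    rw [Finset.mem_union]
    by_cases hs1 : ‖s‖ = 1
    · left
      rw [hSq, Finset.mem_image]
      refine ⟨s, (mA s).2 ⟨hs.1, hs1⟩, ?_⟩
      have h1 := mc hs1
      have h2 : conj s * (s ^ 2 - x.1 * x.2) = 0 := by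
        linear_combination s * h1 + hb
      rcases mul_eq_zero.1 h2 with h3 | h3
      · exact absurd h3 hcs
      · exact sub_eq_zero.1 h3
    · right
      rw [Finset.mem_image]
      refine ⟨s, (mB s).2 ⟨hs.1, hs1, hs0⟩, ?_⟩
      rw [div_eq_iff hcs]
      exact hb
  have hDcard : D.card ≤ Sq.card + B.card := by
    calc D.card ≤ (Sq ∪ B.image (fun s => s / conj s)).card := Finset.card_le_card hDS
      _ ≤ Sq.card + (B.image (fun s => s / conj s)).card := Finset.card_union_le _ _
      _ ≤ Sq.card + B.card := by
        have := Finset.card_image_le (s := B) (f := fun s => s / conj s)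
        omega
  -- squares
  set U := A.filter (fun p => -p ∉ A) with hU
  set V := A.filter (fun p => -p ∈ A) with hV
  have hUV : V.card + U.card = A.card := by
    rw [hU, hV]
    exact Finset.card_filter_add_card_filter_not _
  have hSqc : 2 * Sq.card ≤ A.card + U.card := by
    have h1 : Sq ⊆ U.image (fun p => p ^ 2) ∪ V.image (fun p => p ^ 2) := by
      intro d hd
      rw [hSq, Finset.mem_image] at hd
      obtain ⟨p, hp, rfl⟩ := hd
      rw [Finset.mem_union, Finset.mem_image, Finset.mem_image]
      by_cases hn : -p ∈ A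
      · right
        exact ⟨p, by rw [hV, Finset.mem_filter]; exact ⟨hp, hn⟩, rfl⟩
      · left
        exact ⟨p, by rw [hU, Finset.mem_filter]; exact ⟨hp, hn⟩, rfl⟩
    have h2 : Sq.card ≤ (U.image (fun p : ℂ => p ^ 2)).card + (V.image (fun p : ℂ => p ^ 2)).card :=
      le_trans (Finset.card_le_card h1) (Finset.card_union_le _ _)
    have h3 : (U.image (fun p : ℂ => p ^ 2)).card ≤ U.card := Finset.card_image_le
    have h5 : 2 * (V.image (fun p : ℂ => p ^ 2)).card ≤ V.card := by
      apply Finset.mul_card_image_le_card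
      intro b hb
      rw [Finset.mem_image] at hb
      obtain ⟨p, hp, rfl⟩ := hb
      have hpV := hp
      rw [hV, Finset.mem_filter] at hp
      have hpn : p ≠ -p := by
        intro h
        have hp0 : p = 0 := by
          have : (2 : ℂ) * p = 0 := by linear_combination h
          rcases mul_eq_zero.1 this with h6 | h6
          · exact absurd h6 two_ne_zero
          · exact h6
        exact h0A (hp0 ▸ hp.1)
      have hsub : ({p, -p} : Finset ℂ) ⊆ V.filter (fun a => a ^ 2 = p ^ 2) := by
        intro z hz
        rw [Finset.mem_insert, Finset.mem_singleton] at hz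
        rw [Finset.mem_filter]
        rcases hz with rfl | rfl
        · exact ⟨hpV, rfl⟩
        · refine ⟨?_, by ring⟩
          rw [hV, Finset.mem_filter]
          refine ⟨hp.2, ?_⟩
          rw [neg_neg]
          exact hp.1
      have h6 := Finset.card_le_card hsub
      rw [Finset.card_pair hpn] at h6
      exact h6
    omega
  -- the exceptional points
  set C := A.filter (fun p => ¬ (p * w ∈ A ∧ p * (1 - w) ∈ A)) with hC
  have hex : ∀ p ∈ C, ∃ s ∈ B, conj s * p ^ 2 - p + s = 0 := by
    intro p hp
    rw [hC, Finset.mem_filter] at hp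
    obtain ⟨hpA, hpn⟩ := hp
    have hp1 := (mA p).1 hpA
    by_contra hcon
    push Not at hcon
    apply hpn
    have hp0 : (0 : ℂ) ≠ p := fun h => h0A (h ▸ hpA)
    have hr := hS 0 h0 p hp1.1 hp0
    have hsub : (S.filter (fun s => dist s 0 = dist s p)) ⊆ ({p * w, p * (1 - w)} : Finset ℂ) := by
      intro s hs
      rw [Finset.mem_filter] at hs
      have hs0 : s ≠ 0 := by
        rintro rfl
        have := hs.2
        rw [dist_self, eq_comm, dist_eq_zero] at this
        exact hp0 this
      have hs1 : ‖s‖ = 1 := by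
        by_contra hne
        exact hcon s ((mB s).2 ⟨hs.1, hne, hs0⟩) (bis0 hp1.2 hs.2)
      rw [Finset.mem_insert, Finset.mem_singleton]
      exact bis1 hw hs1 hp1.2 hs.2
    have heq : (S.filter (fun s => dist s 0 = dist s p)) = ({p * w, p * (1 - w)} : Finset ℂ) := by
      apply Finset.eq_of_subset_of_card_le hsub
      exact le_trans Finset.card_le_two hr
    have hmem : ∀ s ∈ ({p * w, p * (1 - w)} : Finset ℂ), s ∈ A := by
      intro s hs
      rw [← heq, Finset.mem_filter] at hs
      have hs0 : s ≠ 0 := by
        rintro rfl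
        have := hs.2
        rw [dist_self, eq_comm, dist_eq_zero] at this
        exact hp0 this
      have hs1 : ‖s‖ = 1 := by
        by_contra hne
        exact hcon s ((mB s).2 ⟨hs.1, hne, hs0⟩) (bis0 hp1.2 hs.2)
      exact (mA s).2 ⟨hs.1, hs1⟩
    exact ⟨hmem _ (by rw [Finset.mem_insert]; exact Or.inl rfl),
      hmem _ (by rw [Finset.mem_insert, Finset.mem_singleton]; exact Or.inr rfl)⟩
  have hCc : C.card ≤ 2 * B.card := by
    choose! f hf1 hf2 using hex
    have h1 : C.card ≤ 2 * (C.image f).card := by
      apply Finset.card_le_mul_card_image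
      intro b hb
      rw [Finset.mem_image] at hb
      obtain ⟨p0, hp0, rfl⟩ := hb
      by_contra hcon
      push Not at hcon
      obtain ⟨x, hx, y, hy, z, hz, hxy, hxz, hyz⟩ := Finset.two_lt_card.1 hcon
      rw [Finset.mem_filter] at hx hy hz
      have ex := hf2 x hx.1
      have ey := hf2 y hy.1
      have ez := hf2 z hz.1
      rw [hx.2] at ex
      rw [hy.2] at ey
      rw [hz.2] at ez
      have hb0 : (conj (f p0)) ≠ 0 := (map_ne_zero _).2 ((mB _).1 (hf1 p0 hp0)).2.2
      have e1 : conj (f p0) * (x + y) - 1 = 0 := by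
        have : (x - y) * (conj (f p0) * (x + y) - 1) = 0 := by linear_combination ex - ey
        rcases mul_eq_zero.1 this with h | h
        · exact absurd (sub_eq_zero.1 h) hxy
        · exact h
      have e2 : conj (f p0) * (x + z) - 1 = 0 := by
        have : (x - z) * (conj (f p0) * (x + z) - 1) = 0 := by linear_combination ex - ez
        rcases mul_eq_zero.1 this with h | h
        · exact absurd (sub_eq_zero.1 h) hxz
        · exact h
      have e3 : conj (f p0) * (y - z) = 0 := by linear_combination e1 - e2
      rcases mul_eq_zero.1 e3 with h | h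
      · exact hb0 h
      · exact hyz (sub_eq_zero.1 h)
    have h2 : (C.image f).card ≤ B.card := by
      apply Finset.card_le_card
      intro b hb
      rw [Finset.mem_image] at hb
      obtain ⟨p, hp, rfl⟩ := hb
      exact hf1 p hp
    omega
  -- the points without antipode
  have hUc : U.card ≤ 3 * C.card := by
    have hsub : U ⊆ C ∪ (C.image (fun z => z * (1 - w)) ∪ C.image (fun z => z * (1 - w) ^ 2)) := by
      intro p hp
      rw [hU, Finset.mem_filter] at hp
      obtain ⟨hpA, hpn⟩ := hp
      rw [Finset.mem_union, Finset.mem_union, Finset.mem_image, Finset.mem_image]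
      by_contra hcon
      push Not at hcon
      obtain ⟨c1, c2, c3⟩ := hcon
      have step : ∀ z ∈ A, z ∉ C → z * w ∈ A := by
        intro z hz hzC
        rw [hC, Finset.mem_filter] at hzC
        push Not at hzC
        exact (hzC hz).1
      have a1 := step p hpA c1
      have a2 := step (p * w) a1 (fun h => c2 _ h (by linear_combination (-p) * hw))
      have a3 := step (p * w * w) a2 (fun h => c3 _ h (by
        linear_combination (p * (w ^ 2 - w - 1)) * hw))
      apply hpn
      have e : p * w * w * w = -p := by linear_combination (p * (w + 1)) * hw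
      rw [← e]
      exact a3
    have h1 := Finset.card_le_card hsub
    have h2 := Finset.card_union_le C (C.image (fun z => z * (1 - w)) ∪ C.image (fun z => z * (1 - w) ^ 2))
    have h3 := Finset.card_union_le (C.image (fun z => z * (1 - w))) (C.image (fun z => z * (1 - w) ^ 2))
    have h5 : (C.image (fun z => z * (1 - w))).card ≤ C.card := Finset.card_image_le
    have h6 : (C.image (fun z => z * (1 - w) ^ 2)).card ≤ C.card := Finset.card_image_le
    omega
  omega

end Pool.Agent.Helper45.BR
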