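import Pool.Agent.Helper82.BR.St3

/-!
# Module SB of project BR8
-/

set_option autoImplicit false

namespace Pool.Agent.Helper45.BR

open Pool.Agent.Helper82.BR
open scoped ComplexConjugate

theorem hSB : StSB := by
  intro S a c ha h
  obtain ⟨a', b', ha', h0, hh, hor⟩ := h
  rcases hor with h1 | h1
  · refine ⟨a' * a, b' - a' * a * c, mul_ne_zero ha' ha, h0, hh, Or.inl ?_⟩
    rw [← h1, Finset.image_image]
    refine Finset.image_congr fun z _ => ?_
    simp only [Function.comp]
    ring
  · refine ⟨a' * conj a, b' - a' * conj a * conj c, mul_ne_zero ha' ((map_ne_zero _).2 ha), h0, hh,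
      Or.inr ?_⟩
    rw [← h1, Finset.image_image]
    refine Finset.image_congr fun z _ => ?_
    simp only [Function.comp, map_mul, map_sub]
    ring

end Pool.Agent.Helper45.BR
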